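import Pool.Agent.H48.MT.Targets
import Pool.Agent.H48.MT.Targets3

/-!
# MP_c80a4f_an, module E3: operators with nonzero square
-/

set_option linter.unusedSectionVars false

open InnerProductSpace
open scoped ComplexConjugate

namespace Pool.Agent.H99.MT.E3
open Pool.Agent.H48.MT

variable {H : Type} [NormedAddCommGroup H] [InnerProductSpace ℂ H] [CompleteSpace H]

lemma jp_ro_apply (B : H →L[ℂ] H) (u v z : H) :
    jp B (ro u v) z = (2 : ℂ)⁻¹ • (inner ℂ v z • B u + inner ℂ v (B z) • u) := by
  rw [jp_ro]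
  simp [ro_apply, ContinuousLinearMap.star_eq_adjoint, ContinuousLinearMap.adjoint_inner_left]

lemma tr_jp_ro {tr : (H →L[ℂ] H) → ℂ} (htr : IsTr tr) (hro : ∀ x y : H, FR (ro x y))
    (hadd : ∀ X Y : H →L[ℂ] H, FR X → FR Y → FR (X + Y))
    (hsm : ∀ (c : ℂ) (X : H →L[ℂ] H), FR X → FR (c • X)) (B : H →L[ℂ] H) (u v : H) :
    FR (jp B (ro u v)) ∧ tr (jp B (ro u v)) = inner ℂ v (B u) := by
  rw [jp_ro]
  have h1 : FR (ro (B u) v + ro u (star B v)) := hadd _ _ (hro _ _) (hro _ _)
  refine ⟨hsm _ _ h1, ?_⟩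
  rw [htr.smul _ _ h1, htr.add _ _ (hro _ _) (hro _ _), htr.rk, htr.rk,
    ContinuousLinearMap.star_eq_adjoint, ContinuousLinearMap.adjoint_inner_left]
  ring

theorem e3 (h1 : T_TR) (h2 : T_GEN) : T_E3 := by
  intro H _ _ _ L Φ m hJ hE B hBB
  obtain ⟨⟨tr, htr⟩, hro, hadd, hsm, -, -⟩ := h1 H
  set X := Φ B with hX
  have claim : ∀ u, B (B u) ≠ 0 → X u = B u := by
    intro u hu
    by_cases hpar : ∃ b : ℂ, B u = b • u
    · obtain ⟨b, hb⟩ := hpar
      rw [hb, hX, hE B u b hb]
    push Not at hpar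
    by_contra hne
    have hd : X u - B u ≠ 0 := sub_ne_zero.2 hne
    have hu0 : u ≠ 0 := by
      rintro rfl
      simp at hu
    obtain ⟨v, hv0, hv2, hvd, hdisc⟩ := (h2 H u (B u) (B (B u)) (X u - B u) hu0 hu hd).2 hpar
    set m0 : ℂ := inner ℂ v u with hm0
    set m1 : ℂ := inner ℂ v (B u) with hm1
    set m2 : ℂ := inner ℂ v (B (B u)) with hm2
    obtain ⟨mu, hmu⟩ : ∃ mu : ℂ, mu ^ 2 = m0 * m2 := by
      obtain ⟨z, hz⟩ := IsAlgClosed.exists_pow_nat_eq (m0 * m2) (n := 2) (by norm_num)
      exact ⟨z, hz⟩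
    have hmu0 : mu ≠ 0 := by
      rintro rfl
      have : m0 * m2 = 0 := by rw [← hmu]; ring
      rcases mul_eq_zero.1 this with h | h
      · exact hv0 h
      · exact hv2 h
    have hlp : m1 + mu ≠ 0 := by
      intro h
      apply hdisc
      rw [← hmu]
      have : m1 = -mu := by linear_combination h
      rw [this]
      ring
    have hlm : m1 - mu ≠ 0 := by
      intro h
      apply hdisc
      rw [← hmu]
      have : m1 = mu := by linear_combination h
      rw [this]
    set R := ro u v with hR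
    have hΦR : Φ R = R := hJ.r1 u v hv0
    have hΦR' : Φ (star R) = star R := by
      rw [hR, star_ro]
      apply hJ.r1
      intro h
      apply hv0
      rw [hm0, ← inner_conj_symm, h, map_zero]
    have hmul := hJ.mul B R hΦR hΦR'
    set T0 := jp B R with hT0
    have hT0z : ∀ z, T0 z = (2 : ℂ)⁻¹ • (inner ℂ v z • B u + inner ℂ v (B z) • u) :=
      jp_ro_apply B u v
    -- eigenvectors
    have e1 : mu * mu = m0 * m2 := by rw [← hmu]; ring
    have hwp : T0 (m2 • u + mu • B u) = ((m1 + mu) / 2) • (m2 • u + mu • B u) := by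
      rw [hT0z]
      simp only [inner_add_right, inner_smul_right, map_add, map_smul, ← hm0, ← hm1, ← hm2]
      match_scalars
      · linear_combination (-1 / 2 : ℂ) * e1
      · ring
    have hwm : T0 (m2 • u + (-mu) • B u) = ((m1 - mu) / 2) • (m2 • u + (-mu) • B u) := by
      rw [hT0z]
      simp only [inner_add_right, inner_smul_right, map_add, map_smul, ← hm0, ← hm1, ← hm2]
      match_scalars
      · linear_combination (-1 / 2 : ℂ) * e1
      · ring
    have hΦT0 : Φ T0 = T0 := by
      ext z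
      obtain ⟨al, be, hz⟩ : ∃ al be : ℂ, T0 z = al • u + be • B u :=
        ⟨2⁻¹ * inner ℂ v (B z), 2⁻¹ * inner ℂ v z, by rw [hT0z]; module⟩
      set cp : ℂ := (al / m2 + be / mu) / (m1 + mu) with hcp
      set cm : ℂ := (al / m2 - be / mu) / (m1 - mu) with hcm
      set w : H := cp • (m2 • u + mu • B u) + cm • (m2 • u + (-mu) • B u) with hw
      have hTw : T0 w = T0 z := by
        rw [hw, map_add, map_smul, map_smul, hwp, hwm, hz]
        match_scalars
        · rw [hcp, hcm]
          field_simp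
          ring
        · rw [hcp, hcm]
          field_simp
          ring
      have hΦw : Φ T0 w = T0 w := by
        rw [hw, map_add, map_smul, map_smul, hE _ _ _ hwp, hE _ _ _ hwm, map_add, map_smul,
          map_smul, hwp, hwm]
      have hk : T0 (z - w) = (0 : ℂ) • (z - w) := by rw [map_sub, hTw, sub_self, zero_smul]
      have hk2 := hE _ _ _ hk
      rw [map_sub, zero_smul, sub_eq_zero] at hk2
      rw [hk2, hΦw, hTw]
    have hfin : L (jp X R) = L T0 := by
      rw [hX, hmul, hJ.com, hΦT0]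
    have t1 := tr_jp_ro htr hro hadd hsm X u v
    have t2 := tr_jp_ro htr hro hadd hsm B u v
    have t3 := (hJ.lm.trc tr htr _ t1.1).2
    have t4 := (hJ.lm.trc tr htr _ t2.1).2
    apply hvd
    rw [inner_sub_right, ← t1.2, ← t2.2, ← t3, ← t4, ← hR, ← hT0, hfin, sub_self]
  obtain ⟨u0, hu0⟩ : ∃ u0, B (B u0) ≠ 0 := by
    by_contra hcon
    push Not at hcon
    exact hBB (ContinuousLinearMap.ext hcon)
  have hfin : ∀ w, X w = B w := by
    intro w
    have ht : ∃ t : ℂ, B (B (w + t • u0)) ≠ 0 := by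
      by_contra hcon
      push Not at hcon
      have e0 := hcon 0
      have e1 := hcon 1
      simp only [zero_smul, add_zero, one_smul, map_add] at e0 e1
      rw [e0, zero_add] at e1
      exact hu0 e1
    obtain ⟨t, ht⟩ := ht
    have e1 := claim _ ht
    have e2 := claim _ hu0
    rw [map_add, map_add, map_smul, map_smul, e2] at e1
    exact add_right_cancel e1
  exact ContinuousLinearMap.ext hfin

end Pool.Agent.H99.MT.E3
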