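import Pool.Agent.H48.MT.Targets
import Pool.Agent.H48.MT.Targets3

/-!
# MP_c80a4f_an, module FS2: operator theory for operation 2, second part
-/

set_option linter.unusedSectionVars false

open InnerProductSpace
open scoped ComplexConjugate

namespace Pool.Agent.H99.MT.FS2
open Pool.Agent.H48.MT

variable {H : Type} [NormedAddCommGroup H] [InnerProductSpace ℂ H] [CompleteSpace H]

/-- a finite dimensional invariant subspace -/
lemma exists_inv (F : H →L[ℂ] H) (x : H)
    (hx : ∃ a b c : ℂ, F x = a • x + b • F (F x) + c • F (F (F (F x)))) :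
    ∃ W : Submodule ℂ H, FiniteDimensional ℂ W ∧ x ∈ W ∧ ∀ w ∈ W, F w ∈ W := by
  set g : Fin 4 → H := ![x, F x, F (F x), F (F (F x))] with hg
  set W : Submodule ℂ H := Submodule.span ℂ (Set.range g) with hW
  have g0 : x ∈ W := Submodule.subset_span ⟨0, rfl⟩
  have g1 : F x ∈ W := Submodule.subset_span ⟨1, rfl⟩
  have g2 : F (F x) ∈ W := Submodule.subset_span ⟨2, rfl⟩
  have g3 : F (F (F x)) ∈ W := Submodule.subset_span ⟨3, rfl⟩
  have g4 : F (F (F (F x))) ∈ W := by
    obtain ⟨a, b, c, h⟩ := hx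
    by_cases hc : c = 0
    · by_cases hb : b = 0
      · subst hc hb
        rw [zero_smul, zero_smul, add_zero, add_zero] at h
        rw [h, map_smul, map_smul, map_smul]
        exact W.smul_mem _ g3
      · subst hc
        rw [zero_smul, add_zero] at h
        have h2 : F (F x) = b⁻¹ • (F x - a • x) := by
          have : F x - a • x = b • F (F x) := by
            nth_rewrite 1 [h]
            abel
          rw [this, smul_smul, inv_mul_cancel₀ hb, one_smul]
        have h4 : F (F (F (F x))) = b⁻¹ • (F (F (F x)) - a • F (F x)) := by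
          conv_lhs => rw [h2]
          simp only [map_smul, map_sub]
        rw [h4]
        exact W.smul_mem _ (W.sub_mem g3 (W.smul_mem _ g2))
    · have h4 : F (F (F (F x))) = c⁻¹ • (F x - a • x - b • F (F x)) := by
        have : F x - a • x - b • F (F x) = c • F (F (F (F x))) := by
          nth_rewrite 1 [h]
          abel
        rw [this, smul_smul, inv_mul_cancel₀ hc, one_smul]
      rw [h4]
      exact W.smul_mem _ (W.sub_mem (W.sub_mem g1 (W.smul_mem _ g0)) (W.smul_mem _ g2))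
  refine ⟨W, FiniteDimensional.span_of_finite ℂ (Set.finite_range g), g0, ?_⟩
  intro w hw
  induction hw using Submodule.span_induction with
  | mem z hz =>
    obtain ⟨i, rfl⟩ := hz
    fin_cases i
    · exact g1
    · exact g2
    · exact g3
    · exact g4
  | zero => rw [map_zero]; exact W.zero_mem
  | add z z' _ _ h h' => rw [map_add]; exact W.add_mem h h'
  | smul c z _ h => rw [map_smul]; exact W.smul_mem _ h

/-- the operators with range in `W` and range of the adjoint in `W'` -/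
def TT (W W' : Submodule ℂ H) : Submodule ℂ (H →L[ℂ] H) where
  carrier := {Y | (∀ z, Y z ∈ W) ∧ ∀ z, star Y z ∈ W'}
  zero_mem' := by
    refine ⟨fun z => ?_, fun z => ?_⟩
    · simp
    · simp
  add_mem' := by
    rintro Y Y' ⟨h1, h2⟩ ⟨h1', h2'⟩
    refine ⟨fun z => ?_, fun z => ?_⟩
    · exact W.add_mem (h1 z) (h1' z)
    · rw [star_add]
      exact W'.add_mem (h2 z) (h2' z)
  smul_mem' := by
    rintro c Y ⟨h1, h2⟩
    refine ⟨fun z => ?_, fun z => ?_⟩
    · exact W.smul_mem _ (h1 z)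
    · rw [star_smul]
      exact W'.smul_mem _ (h2 z)

lemma finite_TT (W W' : Submodule ℂ H) [FiniteDimensional ℂ W] [FiniteDimensional ℂ W'] :
    FiniteDimensional ℂ (TT W W') := by
  let f : TT W W' →ₗ[ℂ] (W' →ₗ[ℂ] W) :=
    { toFun := fun Y => LinearMap.codRestrict W (((Y : H →L[ℂ] H) : H →ₗ[ℂ] H).domRestrict W')
        (fun z => Y.2.1 z)
      map_add' := fun Y Y' => by
        ext z
        simp
      map_smul' := fun c Y => by
        ext z
        simp }
  apply Module.Finite.of_injective f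
  rw [injective_iff_map_eq_zero]
  intro Y hY
  have h1 : ∀ z ∈ W', (Y : H →L[ℂ] H) z = 0 := by
    intro z hz
    have := congrArg (fun g : W' →ₗ[ℂ] W => ((g ⟨z, hz⟩ : W) : H)) hY
    simpa [f] using this
  have h2 : ∀ z, (Y : H →L[ℂ] H) z = 0 := by
    intro z
    have h3 : (Y : H →L[ℂ] H) (z - W'.starProjection z) = 0 := by
      rw [← inner_self_eq_zero (𝕜 := ℂ)]
      set t := (Y : H →L[ℂ] H) (z - W'.starProjection z) with ht
      have h4 : inner ℂ (star (Y : H →L[ℂ] H) t) (z - W'.starProjection z) = 0 := by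
        apply Submodule.inner_right_of_mem_orthogonal (Y.2.2 t)
        exact Submodule.sub_starProjection_mem_orthogonal z
      rwa [ContinuousLinearMap.star_eq_adjoint, ContinuousLinearMap.adjoint_inner_left, ← ht] at h4
    rw [map_sub, h1 _ (Submodule.starProjection_apply_mem W' z), sub_zero] at h3
    exact h3
  exact Subtype.ext (ContinuousLinearMap.ext h2)

theorem fs2 (h1 : T_TR) : T_FS2 := by
  intro H _ _ _ F hj hs hinj hx hy
  obtain ⟨⟨tr, htr⟩, -, -, -, -, -⟩ := h1 H
  by_cases hsc : ∀ v, ¬ LinearIndependent ℂ ![v, (F : H →ₗ[ℂ] H) v]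
  · obtain ⟨a, ha⟩ := LinearMap.exists_eq_smul_id_of_forall_notLinearIndependent hsc
    refine ⟨a, ?_⟩
    ext z
    have := congrArg (fun g : H →ₗ[ℂ] H => g z) ha
    simpa using this
  exfalso
  push Not at hsc
  obtain ⟨x, hlin⟩ := hsc
  rw [LinearIndependent.pair_iff] at hlin
  have hFx0 : F x ≠ 0 := by
    intro h
    have := (hlin 0 1 (by simp [h])).2
    exact one_ne_zero this
  -- the vector `y0`
  obtain ⟨y0, hy1, hy2⟩ : ∃ y0 : H, inner ℂ y0 (F x) = 0 ∧ inner ℂ y0 x = 1 := by
    set y : H := x - (inner ℂ (F x) x / (‖F x‖ : ℂ) ^ 2) • F x with hydef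
    have hn : (‖F x‖ : ℂ) ≠ 0 := by simpa using hFx0
    have e1 : inner ℂ (F x) y = 0 := by
      rw [hydef, inner_sub_right, inner_smul_right, inner_self_eq_norm_sq_to_K, sub_eq_zero]
      field_simp
      rfl
    have e2 : y ≠ 0 := by
      intro h
      have := (hlin 1 (-(inner ℂ (F x) x / (‖F x‖ : ℂ) ^ 2)) (by
        rw [one_smul, neg_smul, ← sub_eq_add_neg]
        exact h)).1
      exact one_ne_zero this
    have e3 : inner ℂ y (F x) = 0 := by rw [← inner_conj_symm, e1, map_zero]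
    have e4 : inner ℂ y x = (‖y‖ : ℂ) ^ 2 := by
      have : x = y + (inner ℂ (F x) x / (‖F x‖ : ℂ) ^ 2) • F x := by rw [hydef]; abel
      conv_lhs => rw [this]
      rw [inner_add_right, inner_smul_right, e3, mul_zero, add_zero, inner_self_eq_norm_sq_to_K]
      rfl
    have e5 : (‖y‖ : ℂ) ≠ 0 := by simpa using e2
    refine ⟨((‖y‖ : ℂ) ^ 2)⁻¹ • y, ?_, ?_⟩
    · rw [inner_smul_left, e3, mul_zero]
    · rw [inner_smul_left, e4, map_inv₀, map_pow, Complex.conj_ofReal]
      field_simp
  obtain ⟨W, hWf, hxW, hWF⟩ := exists_inv F x (hx x)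
  obtain ⟨W', hWf', hyW, hWF'⟩ := exists_inv (star F) y0 (hy y0)
  have := finite_TT W W'
  have hFR : ∀ Y ∈ TT W W', FR Y := by
    intro Y hY
    apply Submodule.finiteDimensional_of_le (S₂ := W)
    rintro _ ⟨z, rfl⟩
    exact hY.1 z
  have hleft : ∀ Y ∈ TT W W', F * Y ∈ TT W W' := by
    intro Y hY
    refine ⟨fun z => hWF _ (hY.1 z), fun z => ?_⟩
    rw [star_mul]
    exact hY.2 _
  have hright : ∀ Y ∈ TT W W', Y * F ∈ TT W W' := by
    intro Y hY
    refine ⟨fun z => hY.1 _, fun z => ?_⟩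
    rw [star_mul]
    exact hWF' _ (hY.2 z)
  have hjp : ∀ Y ∈ TT W W', jp F Y ∈ TT W W' := fun Y hY =>
    Submodule.smul_mem _ _ (Submodule.add_mem _ (hleft Y hY) (hright Y hY))
  let f1 : TT W W' →ₗ[ℂ] TT W W' :=
    { toFun := fun Y => ⟨jp F Y, hjp Y Y.2⟩
      map_add' := fun Y Y' => Subtype.ext (by simp [jp_add])
      map_smul' := fun c Y => Subtype.ext (by simp [jp_smul]) }
  let f2 : TT W W' →ₗ[ℂ] TT W W' :=
    { toFun := fun Y => ⟨F * Y, hleft Y Y.2⟩
      map_add' := fun Y Y' => Subtype.ext (by simp [mul_add])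
      map_smul' := fun c Y => Subtype.ext (by simp) }
  have hf1 : Function.Surjective f1 := by
    apply LinearMap.injective_iff_surjective.1
    rw [injective_iff_map_eq_zero]
    intro Y hY
    apply Subtype.ext
    apply hj
    exact congrArg Subtype.val hY
  have hcan : ∀ Y : H →L[ℂ] H, F * Y = 0 → Y = 0 := by
    intro Y hY
    ext z
    apply hinj
    exact congrArg (fun g : H →L[ℂ] H => g z) hY
  have hf2 : Function.Surjective f2 := by
    apply LinearMap.injective_iff_surjective.1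
    rw [injective_iff_map_eq_zero]
    intro Y hY
    apply Subtype.ext
    apply hcan
    exact congrArg Subtype.val hY
  have hZ : ro (F x) y0 ∈ TT W W' := by
    refine ⟨fun z => W.smul_mem _ (hWF _ hxW), fun z => ?_⟩
    rw [star_ro]
    exact W'.smul_mem _ hyW
  obtain ⟨Y, hY⟩ := hf1 ⟨_, hZ⟩
  have hY1 : jp F (Y : H →L[ℂ] H) = ro (F x) y0 := congrArg Subtype.val hY
  obtain ⟨X, hX⟩ := hf2 Y
  have hX1 : F * (X : H →L[ℂ] H) = Y := congrArg Subtype.val hX
  have hY4 : (Y : H →L[ℂ] H) ^ 4 = 0 := by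
    apply hs
    rw [hY1, ro_mul_ro, hy1, zero_smul]
  have htY : tr (Y : H →L[ℂ] H) = 0 := htr.nil _ 4 (hFR _ Y.2) hY4
  have hsum : (Y : H →L[ℂ] H) + X * F = (2 : ℂ) • ro x y0 := by
    rw [← sub_eq_zero]
    apply hcan
    have e1 : F * (Y : H →L[ℂ] H) + Y * F = (2 : ℂ) • ro (F x) y0 := by
      rw [← hY1, jp, smul_smul]
      norm_num
    rw [mul_sub, mul_add, ← mul_assoc, hX1, mul_smul_comm, mul_ro, e1, sub_self]
  have hfr : FR ((X : H →L[ℂ] H) * F) := hFR _ (hright _ X.2)
  have e1 : tr ((Y : H →L[ℂ] H) + X * F) = 0 := by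
    rw [htr.add _ _ (hFR _ Y.2) hfr, htr.cyc _ _ (hFR _ X.2), hX1, htY, add_zero]
  rw [hsum, htr.smul _ _ ?_, htr.rk, hy2] at e1
  · norm_num at e1
  · apply hFR
    refine ⟨fun z => W.smul_mem _ hxW, fun z => ?_⟩
    rw [star_ro]
    exact W'.smul_mem _ hyW

end Pool.Agent.H99.MT.FS2
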