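import Pool.Agent.H48.MT.Targets3

/-!
# MP_c80a4f_an, module NRK: rank one operators which are not nilpotent, not the mean transform
-/

set_option linter.unusedSectionVars false

open InnerProductSpace
open scoped ComplexConjugate

namespace Pool.Agent.H99.MT.NRK
open Pool.Agent.H48.MT

variable {H : Type} [NormedAddCommGroup H] [InnerProductSpace ℂ H] [CompleteSpace H]

/-- a vector orthogonal to everything orthogonal to `u` is a multiple of `u` -/
lemma par {a u : H} (h : ∀ z, inner ℂ u z = 0 → inner ℂ a z = 0) : ∃ c : ℂ, a = c • u := by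
  set c : ℂ := inner ℂ u a / (‖u‖ : ℂ) ^ 2 with hc
  refine ⟨c, ?_⟩
  have h1 : inner ℂ u (a - c • u) = 0 := by
    rw [inner_sub_right, inner_smul_right, inner_self_eq_norm_sq_to_K, hc]
    by_cases hu : u = 0
    · simp [hu]
    · have : (‖u‖ : ℂ) ≠ 0 := by simpa using hu
      have h2 : ((‖u‖ : ℝ) : ℂ) ^ 2 ≠ 0 := pow_ne_zero 2 this
      rw [sub_eq_zero]
      field_simp
      rfl
  have h2 := h _ h1
  have h3 : inner ℂ (a - c • u) (a - c • u) = 0 := by
    rw [inner_sub_left, h2, inner_smul_left, h1]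
    simp
  exact sub_eq_zero.1 (inner_self_eq_zero.1 h3)

lemma rk_of_perp {C : H →L[ℂ] H} {b : H} (hb : b ≠ 0) (h : ∀ z, inner ℂ b z = 0 → C z = 0) :
    ∃ u, C = ro u b := by
  refine ⟨(1 / (‖b‖ : ℂ) ^ 2) • C b, ?_⟩
  have hn : (‖b‖ : ℂ) ≠ 0 := by simpa using hb
  ext z
  have h1 : inner ℂ b (z - (inner ℂ b z / (‖b‖ : ℂ) ^ 2) • b) = 0 := by
    rw [inner_sub_right, inner_smul_right, inner_self_eq_norm_sq_to_K, sub_eq_zero]
    field_simp
    rfl
  have h2 := h _ h1
  rw [map_sub, map_smul, sub_eq_zero] at h2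
  rw [h2, ro_apply, smul_smul]
  congr 1
  ring

lemma cover {a b u : H} (h : ∀ z, inner ℂ u z = 0 → inner ℂ a z = 0 ∨ inner ℂ b z = 0) :
    (∀ z, inner ℂ u z = 0 → inner ℂ a z = 0) ∨ (∀ z, inner ℂ u z = 0 → inner ℂ b z = 0) := by
  by_contra hcon
  push Not at hcon
  obtain ⟨⟨z, hz1, hz2⟩, ⟨w, hw1, hw2⟩⟩ := hcon
  have hz3 : inner ℂ b z = 0 := (h z hz1).resolve_left hz2
  have hw3 : inner ℂ a w = 0 := (h w hw1).resolve_right hw2
  have hs : inner ℂ u (z + w) = 0 := by rw [inner_add_right, hz1, hw1, add_zero]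
  rcases h _ hs with h1 | h1
  · rw [inner_add_right, hw3, add_zero] at h1
    exact hz2 h1
  · rw [inner_add_right, hz3, zero_add] at h1
    exact hw2 h1

lemma cover' {C D : H →L[ℂ] H} {u : H} (h : ∀ z, inner ℂ u z = 0 → C z = 0 ∨ D z = 0) :
    (∀ z, inner ℂ u z = 0 → C z = 0) ∨ (∀ z, inner ℂ u z = 0 → D z = 0) := by
  by_contra hcon
  push Not at hcon
  obtain ⟨⟨z, hz1, hz2⟩, ⟨w, hw1, hw2⟩⟩ := hcon
  have hz3 : D z = 0 := (h z hz1).resolve_left hz2
  have hw3 : C w = 0 := (h w hw1).resolve_right hw2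
  have hs : inner ℂ u (z + w) = 0 := by rw [inner_add_right, hz1, hw1, add_zero]
  rcases h _ hs with h1 | h1
  · rw [map_add, hw3, add_zero] at h1
    exact hz2 h1
  · rw [map_add, hz3, zero_add] at h1
    exact hw2 h1

/-- a unit vector has an orthogonal unit vector -/
lemma exists_perp (h : Two H) (b : H) : ∃ y : H, ‖y‖ = 1 ∧ inner ℂ b y = 0 := by
  obtain ⟨x, y, hx, hy, hxy⟩ := h
  have key : ∃ w : H, w ≠ 0 ∧ inner ℂ b w = 0 := by
    by_contra hcon
    push Not at hcon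
    have h0 : inner ℂ b ((inner ℂ b y) • x - (inner ℂ b x) • y) = 0 := by
      rw [inner_sub_right, inner_smul_right, inner_smul_right]
      ring
    have h1 : (inner ℂ b y) • x - (inner ℂ b x) • y = 0 := by
      by_contra hne
      exact hcon _ hne h0
    have h2 : inner ℂ x ((inner ℂ b y) • x - (inner ℂ b x) • y) = 0 := by rw [h1, inner_zero_right]
    rw [inner_sub_right, inner_smul_right, inner_smul_right, hxy, inner_self_eq_norm_sq_to_K, hx]
      at h2
    have h3 : inner ℂ b y = 0 := by simpa using h2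
    have hy0 : y ≠ 0 := by
      intro h
      rw [h, norm_zero] at hy
      exact zero_ne_one hy
    exact hcon y hy0 h3
  obtain ⟨w, hw, hbw⟩ := key
  refine ⟨((‖w‖ : ℂ)⁻¹) • w, ?_, ?_⟩
  · rw [norm_smul]
    have : ‖w‖ ≠ 0 := norm_ne_zero_iff.2 hw
    simp [this]
  · rw [inner_smul_right, hbw, mul_zero]

theorem nrk : T_NRK := by
  intro H _ _ _ L Φ f hJ hK a b hab
  have hb : b ≠ 0 := by
    rintro rfl
    exact hab (inner_zero_left _)
  have ha : a ≠ 0 := by
    rintro rfl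
    exact hab (inner_zero_right _)
  have hnb : (‖b‖ : ℂ) ≠ 0 := by simpa using hb
  have hna : (‖a‖ : ℂ) ≠ 0 := by simpa using ha
  set C := Φ (ro a b) with hC
  have hC0 : C ≠ 0 := by
    intro h
    have h1 : ro a b = 0 := hJ.bij.1 (by rw [← hC, h, hJ.zero])
    rcases ro_eq_zero.1 h1 with h2 | h2
    · exact ha h2
    · exact hb h2
  have hset : ∀ z, (inner ℂ b z = 0 ∨ inner ℂ a z = 0) ↔ (C z = 0 ∨ star C z = 0) := by
    intro z
    rw [← hK (ro a b) z, star_ro, ro_apply, ro_apply]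
    simp [ha, hb]
  -- the value at `L B`
  set bh : H := ((‖b‖ : ℂ)⁻¹) • b with hbh
  have hbh1 : ‖bh‖ = 1 := by
    rw [hbh, norm_smul]
    have : ‖b‖ ≠ 0 := norm_ne_zero_iff.2 hb
    simp [this]
  have hbb : ro b b = ((‖b‖ : ℂ) ^ 2) • ro bh bh := by
    rw [hbh, ro_smul_left, ro_smul_right, smul_smul, smul_smul]
    simp only [map_inv₀, Complex.conj_ofReal]
    have : (‖b‖ : ℂ) ^ 2 * (‖b‖ : ℂ)⁻¹ * (‖b‖ : ℂ)⁻¹ = 1 := by field_simp
    rw [this, one_smul]
  have hLB : L (ro a b) = (inner ℂ b a) • ro bh bh := by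
    rw [hJ.lm.rk0 rfl a b hb, hbb, smul_smul]
    congr 1
    field_simp
  have hf0 : f 0 = 0 := by
    rcases hJ.fid with h | h
    · exact h 0
    · rw [h, map_zero]
  have hft : f (inner ℂ b a) ≠ 0 := by
    rcases hJ.fid with h | h
    · rwa [h]
    · rw [h]
      exact (map_ne_zero _).2 hab
  have hLC : L C = f (inner ℂ b a) • ro bh bh := by
    rw [hC, ← hJ.com, hLB]
    obtain ⟨y, hy, hby⟩ := exists_perp hJ.two bh
    have h1 := hJ.val bh y hbh1 hy hby (inner ℂ b a) 0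
    rwa [hf0, zero_smul, add_zero, add_zero] at h1
  -- it suffices to find `c`
  suffices hs : ∃ c : ℂ, C = c • ro a b by
    obtain ⟨c, hc⟩ := hs
    refine ⟨c, hc, ?_⟩
    have h1 : L C = (c * inner ℂ b a) • ro bh bh := by
      rw [hc, hJ.lm.hom, hLB, smul_smul]
    rw [hLC] at h1
    have h2 := congrArg (fun T : H →L[ℂ] H => inner ℂ bh (T bh)) h1
    simp only [smul_apply, ro_apply, inner_smul_right,
      inner_self_eq_norm_sq_to_K, hbh1] at h2
    simpa using h2.symm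
  -- if `a` and `b` are parallel and `C` is a multiple of `b (x) b`
  have hpar : ∀ (u v : H), C = ro u v → (∃ c : ℂ, u = c • b) → (∃ c : ℂ, v = c • b) →
      (∃ c : ℂ, b = c • a) → ∃ c : ℂ, C = c • ro a b := by
    rintro u v huv ⟨c1, rfl⟩ ⟨c2, rfl⟩ ⟨c3, hc3⟩
    refine ⟨c1 * conj c2 * c3, ?_⟩
    rw [huv, ro_smul_left, ro_smul_right, smul_smul]
    conv_lhs => rw [hc3]
    conv_rhs => rw [hc3]
    simp only [ro_smul_left, ro_smul_right, smul_smul]
    congr 1
    ring
  have hcov : ∀ z, inner ℂ b z = 0 → C z = 0 ∨ star C z = 0 := fun z hz => (hset z).1 (Or.inl hz)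
  rcases cover' hcov with h1 | h1
  · obtain ⟨u, hu⟩ := rk_of_perp hb h1
    have hu0 : u ≠ 0 := by
      rintro rfl
      exact hC0 (by rw [hu, ro_zero_left])
    have hset2 : ∀ z, (inner ℂ b z = 0 ∨ inner ℂ a z = 0) ↔ (inner ℂ b z = 0 ∨ inner ℂ u z = 0) := by
      intro z
      rw [hset z, hu, star_ro, ro_apply, ro_apply]
      simp [hb, hu0]
    rcases cover (a := a) (b := b) (u := u) (fun z hz => ((hset2 z).2 (Or.inr hz)).symm) with h2 | h2
    · obtain ⟨c, hc⟩ := par h2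
      have hc0 : c ≠ 0 := by
        rintro rfl
        rw [zero_smul] at hc
        exact ha hc
      refine ⟨c⁻¹, ?_⟩
      rw [hu, hc, ro_smul_left, smul_smul, inv_mul_cancel₀ hc0, one_smul]
    · obtain ⟨c, hc⟩ := par h2
      have hc0 : c ≠ 0 := by
        rintro rfl
        rw [zero_smul] at hc
        exact hb hc
      have hub : u = c⁻¹ • b := by rw [hc, smul_smul, inv_mul_cancel₀ hc0, one_smul]
      refine hpar u b hu ⟨_, hub⟩ ⟨1, (one_smul _ _).symm⟩ ?_
      apply par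
      intro z hz
      rcases (hset2 z).1 (Or.inr hz) with h3 | h3
      · exact h3
      · rw [hc, inner_smul_left, h3, mul_zero]
  · obtain ⟨u, hu'⟩ := rk_of_perp hb h1
    have hu : C = ro b u := by rw [← star_star C, hu', star_ro]
    have hu0 : u ≠ 0 := by
      rintro rfl
      exact hC0 (by rw [hu, ro_zero_right])
    have hset2 : ∀ z, (inner ℂ b z = 0 ∨ inner ℂ a z = 0) ↔ (inner ℂ u z = 0 ∨ inner ℂ b z = 0) := by
      intro z
      rw [hset z, hu, star_ro, ro_apply, ro_apply]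
      simp [hb, hu0]
    rcases cover (a := a) (b := b) (u := u) (fun z hz => ((hset2 z).2 (Or.inl hz)).symm) with h2 | h2
    · obtain ⟨c, hc⟩ := par h2
      have hc0 : c ≠ 0 := by
        rintro rfl
        rw [zero_smul] at hc
        exact ha hc
      have hua : u = c⁻¹ • a := by rw [hc, smul_smul, inv_mul_cancel₀ hc0, one_smul]
      -- `C = conj c⁻¹ b (x) a`
      have hLC2 : L C = (conj c⁻¹ * (inner ℂ a b / (‖a‖ : ℂ) ^ 2)) • ro a a := by
        rw [hu, hua, ro_smul_right, hJ.lm.hom, hJ.lm.rk0 rfl b a ha, smul_smul]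
      rw [hLC] at hLC2
      have h3 := congrArg (fun T : H →L[ℂ] H => T bh) hLC2
      simp only [smul_apply, ro_apply, inner_self_eq_norm_sq_to_K, hbh1,
        smul_smul] at h3
      have h4 : ∃ c : ℂ, b = c • a := by
        have h5 : bh = (f (inner ℂ b a))⁻¹ • ((conj c⁻¹ * (inner ℂ a b / (‖a‖ : ℂ) ^ 2) *
            inner ℂ a bh) • a) := by
          rw [← h3, smul_smul]
          simp [hft]
        refine ⟨(‖b‖ : ℂ) * ((f (inner ℂ b a))⁻¹ * (conj c⁻¹ * (inner ℂ a b / (‖a‖ : ℂ) ^ 2) *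
            inner ℂ a bh)), ?_⟩
        rw [mul_smul, mul_smul (f (inner ℂ b a))⁻¹, ← h5, hbh, smul_smul, mul_inv_cancel₀ hnb,
          one_smul]
      obtain ⟨d, hd⟩ := h4
      have hd0 : d ≠ 0 := by
        rintro rfl
        rw [zero_smul] at hd
        exact hb hd
      refine hpar b u hu ⟨1, (one_smul _ _).symm⟩ ⟨c⁻¹ * d⁻¹, ?_⟩ ⟨d, hd⟩
      rw [hua, hd, smul_smul, mul_assoc, inv_mul_cancel₀ hd0, mul_one]
    · obtain ⟨c, hc⟩ := par h2
      have hc0 : c ≠ 0 := by
        rintro rfl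
        rw [zero_smul] at hc
        exact hb hc
      have hub : u = c⁻¹ • b := by rw [hc, smul_smul, inv_mul_cancel₀ hc0, one_smul]
      refine hpar b u hu ⟨1, (one_smul _ _).symm⟩ ⟨_, hub⟩ ?_
      apply par
      intro z hz
      rcases (hset2 z).1 (Or.inr hz) with h3 | h3
      · rw [hc, inner_smul_left, h3, mul_zero]
      · exact h3

end Pool.Agent.H99.MT.NRK
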